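import Pool.Agent.W888.SX.Main

set_option autoImplicit false

/-!
# Branch-and-cut for small-set expansion

The definitions used in the statement are in `Pool/Agent/W888/SX/Rel.lean`, `Cube.lean` and
`Pool/Agent/W888/UG/Ent.lean`, `Model.lean`:

* `cubeWt ε`: the weights of the noisy cube with noise `ε` on the vertices `Fin R → Bool` (a
  weighted graph of degree one);
* `expansion wt S`: the weight of the boundary of `S` divided by `|S|`;
* `Relax wt s₁ s₂ η`: the fractional points which the semidefinite relaxation (with all triangle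
  inequalities and size constraints) does not exclude when it is used to prove that no set `S` with
  `s₁ ≤ |S| ≤ s₂` has expansion at most `η`;
* `lab o`: the point of the set with indicator `o`;
* `Tree`: branch-and-cut trees; `Tree.leaves`: the number of leaves; `Tree.Proves`: at every leaf no
  point of the relaxation satisfies all the branches above it;
* `SplitProof`: cutting-plane proofs with split cuts, as lists of cuts.

Idea of the proof. If fewer than `2 ^ (γ n)` convex sets cover the cube `{0, 1} ^ n`, `n = 2 ^ R`,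
then by superadditivity of the divergence one of them contains a point whose marginals are close
to `p`, slightly below `δ`, outside a small set of vertices. The Gram matrix
`p ^ 2 + (p - p ^ 2) (⟨x, y⟩ / R) ^ 2` is a solution of small expansion with marginals `p`; fixing
the exceptional vertices and mixing with a little of a product distribution gives the marginals of
the point.
-/

namespace Pool.Agent.Results.MP_8d8c46_lc.BranchAndCut

open Pool.Agent.W888.SX
open Pool.Agent.W888.UG (lab Tree SplitProof)

/-- For all `η` and `β` in `(0, 1)` there is `δ₀ > 0` such that for all `δ` in `(0, δ₀]` there is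
`γ > 0` such that for all large `R` the noisy cube with noise `η / 16` and `n = 2 ^ R` vertices has
the following properties.
1. All nonempty sets of at most `δ n` vertices have expansion at least `1 - η`.
2. If `{0, 1} ^ n` is covered by convex sets which contain no point of the relaxation for the sizes
from `(1 - β) δ n` to `δ n` and expansion `η`, then there are at least `2 ^ (γ n)` sets. Every
branch-and-cut tree which proves that no set with a size in this range has expansion at most `η`
has at least `2 ^ (γ n)` leaves, and every such proof with `L` split cuts satisfies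
`2 L + 1 ≥ 2 ^ (γ n)`.
3. If `η < 1 / 2` then some branch-and-cut tree with `2 ^ n` leaves is such a proof. -/
theorem result (η β : ℝ) (hη : 0 < η) (hη1 : η < 1) (hβ : 0 < β) (hβ1 : β < 1) :
    ∃ δ₀ : ℝ, 0 < δ₀ ∧ ∀ δ : ℝ, 0 < δ → δ ≤ δ₀ → ∃ γ : ℝ, 0 < γ ∧ ∃ R₀ : ℕ, ∀ R : ℕ, R₀ ≤ R →
      (∀ S : Finset (Fin R → Bool), S.Nonempty → (S.card : ℝ) ≤ δ * 2 ^ R →
        1 - η ≤ expansion (cubeWt (η / 16)) S) ∧
      (∀ F : List (Set ((Fin R → Bool) → Bool → ℝ)), (∀ C ∈ F, Convex ℝ C) →
        (∀ C ∈ F, ∀ μ ∈ C, μ ∉ Relax (cubeWt (η / 16)) ((1 - β) * (δ * 2 ^ R)) (δ * 2 ^ R) η) →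
        (∀ o : (Fin R → Bool) → Bool, ∃ C ∈ F, lab o ∈ C) →
        (2 : ℝ) ^ (γ * 2 ^ R) ≤ F.length) ∧
      (∀ T : Tree (Fin R → Bool) Bool,
        T.Proves (Relax (cubeWt (η / 16)) ((1 - β) * (δ * 2 ^ R)) (δ * 2 ^ R) η) Set.univ →
        (2 : ℝ) ^ (γ * 2 ^ R) ≤ T.leaves) ∧
      (∀ l, SplitProof (Relax (cubeWt (R := R) (η / 16)) ((1 - β) * (δ * 2 ^ R)) (δ * 2 ^ R) η) l
        Set.univ → (2 : ℝ) ^ (γ * 2 ^ R) ≤ 2 * l.length + 1) ∧
      (η < 1 / 2 → ∃ T : Tree (Fin R → Bool) Bool, T.leaves = 2 ^ 2 ^ R ∧
        T.Proves (Relax (cubeWt (η / 16)) ((1 - β) * (δ * 2 ^ R)) (δ * 2 ^ R) η) Set.univ) :=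
  main_all η β hη hη1 hβ hβ1

end Pool.Agent.Results.MP_8d8c46_lc.BranchAndCut
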