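import Mathlib
import Pool.Agent.W939.SSE.Main

/-!
# Small set expansion and polynomial calculus

There are regular graphs on `n` vertices in which every set of `n / q` vertices has expansion at
least `1 - 1 / q - ε`, while polynomial calculus resolution over every field needs linear degree and
exponential size to refute that some set of `n / q` vertices has expansion at most `ε`.
-/

namespace Pool.Agent.Results.MP_8d8c46_lc.PolynomialCalculus

open Finset Pool.Agent.W939.PC Pool.Agent.W939.SSE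

theorem result :
    (∀ (F : Type) [Field F] (n m s t : ℕ) (ed : Fin m → Fin n × Fin n),
      (∃ x : SVar n m s t → F, ∀ p, SetAx F ed s t p → MvPolynomial.eval x p = 0) ↔
        ∃ S : Finset (Fin n), S.card = s ∧
          (univ.filter (fun i => ¬ ((ed i).1 ∈ S ↔ (ed i).2 ∈ S))).card ≤ t) ∧
    ∃ c : ℕ, ∀ (ε : ℝ) (q : ℕ), 0 < ε → ε ≤ 1 → 2 ≤ q →
      ∃ d : ℕ, 1 ≤ d ∧ (d : ℝ) ≤ (q / ε) ^ c ∧
        ∀ N : ℕ, (q * Real.exp (1 / ε)) ^ c ≤ (N : ℝ) →
        ∃ (G : SimpleGraph (Fin ((N + N) * q))) (m : ℕ)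
          (ed : Fin m → Fin ((N + N) * q) × Fin ((N + N) * q)),
          (∀ x, (G.neighborSet x).ncard = d) ∧
          ((∀ x y, G.Adj x y ↔ ∃ i, ed i = (x, y) ∨ ed i = (y, x)) ∧
            ∀ i j, (ed i = ed j ∨ ed i = (ed j).swap) → i = j) ∧
          (∀ S : Finset (Fin ((N + N) * q)), S.card = N + N →
            (1 - 1 / (q : ℝ) - ε) * ((d * S.card : ℕ) : ℝ) ≤
              (univ.filter (fun i => ¬ ((ed i).1 ∈ S ↔ (ed i).2 ∈ S))).card) ∧
          ∀ t : ℕ, ⌊ε * ((d * (N + N) : ℕ) : ℝ)⌋₊ ≤ t →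
          ∀ (F : Type) [Field F] (M : Finset (SVar ((N + N) * q) m (N + N) t →₀ ℕ)),
            Derives {p | SetAx F ed (N + N) t p}
              (M : Set (SVar ((N + N) * q) m (N + N) t →₀ ℕ)) 1 →
            (∃ x ∈ M, (((N + N) * q : ℕ) : ℝ) / (q * Real.exp (1 / ε)) ^ c ≤ x.degree) ∧
              (2 : ℝ) ^ ((((N + N) * q : ℕ) : ℝ) / (q * Real.exp (1 / ε)) ^ c) ≤ M.card :=
  ⟨fun _ _ _ _ _ _ ed => setAx_sat ed, 300, fun _ _ h0 h1 h2 => main_sse h0 h1 h2⟩

end Pool.Agent.Results.MP_8d8c46_lc.PolynomialCalculus
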